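import Pool.Agent.N440.LB.Stm2
import Pool.Agent.N370.LB.I2

/-!
The contribution of a side.
-/

set_option autoImplicit false

namespace Pool.Agent.N441.LB.J2

open Complex Set MeasureTheory Filter Topology Pool.Agent.W780.PG Pool.Agent.W780.BB
  Pool.Agent.TH103.BL Pool.Agent.N440.LB Pool.Agent.N370.LB

open scoped Real ComplexConjugate

theorem t_J2 : S_J2 := by
  intro hGF hSY n p i hne F C hF hb hper hrefl k
  obtain ⟨hG1, hG2, hG3, hG4⟩ := hGF F C hF hb
  have hC : 0 ≤ C := (abs_nonneg _).trans (hb 0 0)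
  set v : ℂ := p (i + 1) - p i with hv
  set τ : ℝ := tau p i with hτ
  have hoff : ∀ θ, off θ v = ‖v‖ * Real.sin (τ - θ) := fun θ => off_eq θ
  set z : ℝ → ℂ := fun t => pt p i t with hz
  have hzc : Continuous z := by
    have : z = fun t : ℝ => p i + t • v := rfl
    rw [this]
    fun_prop
  set a : ℝ → ℝ → ℝ := fun t θ => F θ (off θ (z t)) with ha
  have ham : Measurable (Function.uncurry a) := by
    have q1 : Measurable (fun x : ℝ × ℝ => z x.1) := hzc.measurable.comp measurable_fst
    have q2 : Measurable (fun x : ℝ × ℝ => ((x.2, z x.1) : ℝ × ℂ)) := measurable_snd.prodMk q1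
    have q3 : Measurable (fun x : ℝ × ℝ => off x.2 (z x.1)) := measurable_off.comp q2
    have q4 : Measurable (fun x : ℝ × ℝ => ((x.2, off x.2 (z x.1)) : ℝ × ℝ)) :=
      measurable_snd.prodMk q3
    exact hF.comp q4
  have hab : ∀ t θ, |a t θ| ≤ C := fun t θ => hb _ _
  have hap : ∀ t θ, a t (θ + 2 * π) = a t θ := by
    intro t θ
    simp only [ha]
    rw [hper, off_per]
  have has : ∀ t ∈ Ioo (0 : ℝ) 1, ∀ θ, Real.sin (θ - τ) ≠ 0 → a t (2 * τ - θ) = a t θ :=
    fun t ht θ hθ => hrefl t ht θ hθ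
  -- the complex Fourier coefficient
  set Ψ : ℂ → ℂ := fun x => ∫ θ in (0 : ℝ)..(2 * π), exp (((k * θ : ℝ) : ℂ) * I) * (G F x θ : ℂ)
    with hΨ
  have hexm : Measurable (fun θ : ℝ => exp (((k * θ : ℝ) : ℂ) * I)) := by
    have : Continuous (fun θ : ℝ => exp (((k * θ : ℝ) : ℂ) * I)) := by fun_prop
    exact this.measurable
  have hΨm : Measurable Ψ := by
    have h1 : StronglyMeasurable (fun x : ℂ × ℝ => exp (((k * x.2 : ℝ) : ℂ) * I) * (G F x.1 x.2 : ℂ)) :=
      ((hexm.comp measurable_snd).mul (measurable_ofReal.comp hG1)).stronglyMeasurable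
    have h2 := (h1.integral_prod_right' (ν := volume.restrict (Ioc (0 : ℝ) (2 * π)))).measurable
    have h3 : Ψ = fun x => ∫ y, exp (((k * y : ℝ) : ℂ) * I) * (G F x y : ℂ)
        ∂(volume.restrict (Ioc (0 : ℝ) (2 * π))) := by
      funext x
      simp only [hΨ]
      rw [intervalIntegral.integral_of_le (by positivity)]
    rw [h3]
    exact h2
  have hΨi : ∀ x, IntervalIntegrable (fun θ : ℝ => exp (((k * θ : ℝ) : ℂ) * I) * (G F x θ : ℂ))
      volume 0 (2 * π) := by
    intro x
    refine ii (K := C * ‖x‖) ?_ ?_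
    · exact (hexm.mul (measurable_ofReal.comp
        (hG1.comp (measurable_const.prodMk measurable_id)))).stronglyMeasurable
    · intro θ
      rw [norm_mul, norm_exp_ofReal_mul_I, one_mul, norm_real, Real.norm_eq_abs]
      exact hG2 _ _
  have hΨb : ∀ x, ‖Ψ x‖ ≤ C * ‖x‖ * |2 * π - 0| := by
    intro x
    refine intervalIntegral.norm_integral_le_of_norm_le_const fun θ _ => ?_
    rw [norm_mul, norm_exp_ofReal_mul_I, one_mul, norm_real, Real.norm_eq_abs]
    exact hG2 _ _
  have hcomb : ∀ (x : ℂ) (s : ℝ), exp (-((k * s : ℝ) : ℂ) * I) * Ψ x =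
      ∫ θ in (0 : ℝ)..(2 * π), exp (((k * (θ - s) : ℝ) : ℂ) * I) * (G F x θ : ℂ) := by
    intro x s
    simp only [hΨ]
    rw [← intervalIntegral.integral_const_mul]
    refine intervalIntegral.integral_congr fun θ _ => ?_
    beta_reduce
    rw [← mul_assoc, ← exp_add]
    congr 2
    push_cast
    ring
  have hcombi : ∀ (x : ℂ) (s : ℝ), IntervalIntegrable
      (fun θ : ℝ => exp (((k * (θ - s) : ℝ) : ℂ) * I) * (G F x θ : ℂ)) volume 0 (2 * π) := by
    intro x s
    refine ii (K := C * ‖x‖) ?_ ?_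
    · have h : Continuous (fun θ : ℝ => exp (((k * (θ - s) : ℝ) : ℂ) * I)) := by fun_prop
      exact (h.measurable.mul (measurable_ofReal.comp
        (hG1.comp (measurable_const.prodMk measurable_id)))).stronglyMeasurable
    · intro θ
      rw [norm_mul, norm_exp_ofReal_mul_I, one_mul, norm_real, Real.norm_eq_abs]
      exact hG2 _ _
  have hAk : ∀ (x : ℂ) (s : ℝ), Ak F k x s = (exp (-((k * s : ℝ) : ℂ) * I) * Ψ x).im := by
    intro x s
    rw [hcomb, ← imCLM_apply, ← ContinuousLinearMap.intervalIntegral_comp_comm _ (hcombi x s)]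
    unfold Ak
    refine intervalIntegral.integral_congr fun θ _ => ?_
    simp only [imCLM_apply]
    rw [im_mul_ofReal, exp_ofReal_mul_I_im]
  have hR : ∀ (x : ℂ) (s : ℝ), (exp (-((k * s : ℝ) : ℂ) * I) * Ψ x).re =
      ∫ θ in (0 : ℝ)..(2 * π), Real.cos (k * (θ - s)) * G F x θ := by
    intro x s
    rw [hcomb, ← reCLM_apply, ← ContinuousLinearMap.intervalIntegral_comp_comm _ (hcombi x s)]
    refine intervalIntegral.integral_congr fun θ _ => ?_
    simp only [reCLM_apply]
    rw [re_mul_ofReal, exp_ofReal_mul_I_re]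
  set R : ℝ → ℝ := fun t => (exp (-((k * τ : ℝ) : ℂ) * I) * Ψ (z t)).re with hRdef
  -- R is constant
  have hRc : ∀ t ∈ Icc (0 : ℝ) 1, ∀ t0 ∈ Icc (0 : ℝ) 1, R t = R t0 := by
    intro t ht t0 ht0
    by_cases htt : t = t0
    · rw [htt]
    have hGi : ∀ x, IntervalIntegrable (fun θ => Real.cos (k * (θ - τ)) * G F x θ) volume 0 (2 * π) := by
      intro x
      refine ii (K := C * ‖x‖) ?_ ?_
      · have h : Continuous (fun θ : ℝ => Real.cos (k * (θ - τ))) := by fun_prop
        exact (h.measurable.mul (hG1.comp (measurable_const.prodMk measurable_id))).stronglyMeasurable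
      · intro θ
        rw [norm_mul, Real.norm_eq_abs, Real.norm_eq_abs]
        calc |Real.cos (k * (θ - τ))| * |G F x θ| ≤ 1 * (C * ‖x‖) := by
              gcongr
              · exact Real.abs_cos_le_one _
              · exact hG2 _ _
          _ = C * ‖x‖ := one_mul _
    set b : ℝ → ℝ := fun θ => ∫ r in (0 : ℝ)..1, F θ (off θ (z t0 + r • (z t - z t0))) with hbdef
    have hzz : ∀ r : ℝ, z t0 + r • (z t - z t0) = z (t0 + r * (t - t0)) := by
      intro r
      simp only [hz, pt, ← hv]
      simp only [real_smul]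
      push_cast
      ring
    have hbe : b = fun θ => ∫ r in (0 : ℝ)..1, a (t0 + r * (t - t0)) θ := by
      funext θ
      simp only [hbdef, ha]
      refine intervalIntegral.integral_congr fun r _ => ?_
      beta_reduce
      rw [hzz]
    have hbm : Measurable b := by
      have h1 : StronglyMeasurable (fun x : ℝ × ℝ => a (t0 + x.2 * (t - t0)) x.1) := by
        refine (ham.comp ((Measurable.prodMk ?_ measurable_fst) : Measurable
          (fun x : ℝ × ℝ => (t0 + x.2 * (t - t0), x.1)))).stronglyMeasurable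
        exact measurable_const.add (measurable_snd.mul_const _)
      have h2 := (h1.integral_prod_right' (ν := volume.restrict (Ioc (0 : ℝ) 1))).measurable
      have h3 : b = fun θ => ∫ y, a (t0 + y * (t - t0)) θ ∂(volume.restrict (Ioc (0 : ℝ) 1)) := by
        rw [hbe]
        funext x
        rw [intervalIntegral.integral_of_le (by norm_num)]
      rw [h3]
      exact h2
    have hbb : ∀ θ, |b θ| ≤ C := by
      intro θ
      have := intervalIntegral.norm_integral_le_of_norm_le_const (a := (0 : ℝ)) (b := 1)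
        (f := fun r => F θ (off θ (z t0 + r • (z t - z t0)))) (C := C) (fun r _ => hb _ _)
      have h : |b θ| ≤ C * |1 - 0| := this
      simpa using h
    have hbp : ∀ θ, b (θ + 2 * π) = b θ := by
      intro θ
      rw [hbe]
      exact intervalIntegral.integral_congr fun r _ => hap _ _
    have hbs : ∀ᵐ θ : ℝ, b (2 * τ - θ) = b θ := by
      filter_upwards [ae_sin τ] with θ hθ
      rw [hbe]
      refine intervalIntegral.integral_congr_ae ?_
      have h1' : ∀ᵐ r : ℝ, r ≠ 1 := by
        have : volume ({1} : Set ℝ) = 0 := measure_singleton 1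
        filter_upwards [measure_eq_zero_iff_ae_notMem.1 this] with t ht using ht
      filter_upwards [h1'] with r hr1 hr
      rw [uIoc_of_le (by norm_num : (0 : ℝ) ≤ 1)] at hr
      obtain ⟨h1, h2⟩ := hr
      have h2' : r < 1 := lt_of_le_of_ne h2 hr1
      refine has _ ?_ θ hθ
      obtain ⟨h3, h4⟩ := ht
      obtain ⟨h5, h6⟩ := ht0
      have e1 : t0 + r * (t - t0) = (1 - r) * t0 + r * t := by ring
      rw [e1]
      have hr1' : 0 < 1 - r := by linarith
      rcases lt_or_gt_of_ne htt with h | h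
      · constructor
        · have q1 := mul_pos hr1' (lt_of_le_of_lt h3 h)
          have q2 := mul_nonneg h1.le h3
          linarith
        · have q1 := mul_lt_mul_of_pos_left (lt_of_lt_of_le h h6) h1
          have q2 := mul_le_mul_of_nonneg_left h6 hr1'.le
          linarith
      · constructor
        · have q1 := mul_pos h1 (lt_of_le_of_lt h5 h)
          have q2 := mul_nonneg hr1'.le h5
          linarith
        · have q1 := mul_lt_mul_of_pos_left (lt_of_lt_of_le h h4) hr1'
          have q2 := mul_le_mul_of_nonneg_left h4 h1.le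
          linarith
    have h0 := (hSY b C τ k hbm hbb hbp hbs).1
    have hdiff : R t - R t0 = (t - t0) * ‖v‖ * ∫ θ in (0 : ℝ)..(2 * π),
        Real.cos (k * (θ - τ)) * (Real.sin (τ - θ) * b θ) := by
      simp only [hRdef]
      rw [hR, hR, ← intervalIntegral.integral_sub (hGi _) (hGi _),
        ← intervalIntegral.integral_const_mul]
      refine intervalIntegral.integral_congr fun θ _ => ?_
      beta_reduce
      rw [← mul_sub, hG3]
      have h1 : off θ (z t - z t0) = (t - t0) * (‖v‖ * Real.sin (τ - θ)) := by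
        have : z t - z t0 = (t - t0) • v := by
          simp only [hz, pt, ← hv]
          simp only [real_smul]
          push_cast
          ring
        rw [this, off_smul, hoff]
      rw [h1]
      simp only [hbdef]
      ring
    rw [h0, mul_zero] at hdiff
    linarith
  -- swap
  set H : ℝ → ℝ := fun t => ∫ θ in (0 : ℝ)..(2 * π),
    Real.sin (θ - τ) * (Real.sin (k * (θ - τ)) * a t θ) with hH
  set f : ℝ → ℝ → ℝ := fun s t =>
    ‖v‖ * (Real.sin (τ - s) * (a t s * (exp (-((k * s : ℝ) : ℂ) * I) * Ψ (z t)).im)) with hf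
  have hJ : ∫ s in (0 : ℝ)..(2 * π), off s v *
      ∫ t in (0 : ℝ)..1, F s (off s (pt p i t)) * Ak F k (pt p i t) s =
      ∫ s in (0 : ℝ)..(2 * π), ∫ t in (0 : ℝ)..1, f s t := by
    refine intervalIntegral.integral_congr fun s _ => ?_
    simp only [hf]
    rw [← intervalIntegral.integral_const_mul]
    refine intervalIntegral.integral_congr fun t _ => ?_
    beta_reduce
    rw [hAk, hoff]
    simp only [ha, hz]
    ring
  have hfm : Measurable (Function.uncurry f) := by
    have e1 : Measurable (fun x : ℝ × ℝ => exp (-((k * x.1 : ℝ) : ℂ) * I)) := by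
      have : Continuous (fun s : ℝ => exp (-((k * s : ℝ) : ℂ) * I)) := by fun_prop
      exact this.measurable.comp measurable_fst
    have e2 : Measurable (fun x : ℝ × ℝ => Ψ (z x.2)) :=
      hΨm.comp (hzc.measurable.comp measurable_snd)
    have e3 : Measurable (fun x : ℝ × ℝ => (exp (-((k * x.1 : ℝ) : ℂ) * I) * Ψ (z x.2)).im) :=
      measurable_im.comp (e1.mul e2)
    have e4 : Measurable (fun x : ℝ × ℝ => a x.2 x.1) := ham.comp measurable_swap
    have e5 : Measurable (fun x : ℝ × ℝ => Real.sin (τ - x.1)) :=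
      Real.measurable_sin.comp (measurable_const.sub measurable_fst)
    exact measurable_const.mul (e5.mul (e4.mul e3))
  have hfb : ∀ s, ∀ t ∈ uIoc (0 : ℝ) 1, |f s t| ≤
      ‖v‖ * (1 * (C * (C * (‖p i‖ + ‖v‖) * |2 * π - 0|))) := by
    intro s t ht
    rw [uIoc_of_le (by norm_num)] at ht
    simp only [hf]
    rw [abs_mul, abs_mul, abs_mul, abs_norm]
    have h1 : ‖z t‖ ≤ ‖p i‖ + ‖v‖ := by
      calc ‖z t‖ = ‖p i + t • v‖ := rfl
        _ ≤ ‖p i‖ + ‖t • v‖ := norm_add_le _ _
        _ ≤ ‖p i‖ + ‖v‖ := by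
            rw [norm_smul, Real.norm_eq_abs, abs_of_pos ht.1]
            have := mul_le_mul_of_nonneg_right ht.2 (norm_nonneg v)
            linarith
    have h2 : |(exp (-((k * s : ℝ) : ℂ) * I) * Ψ (z t)).im| ≤
        C * (‖p i‖ + ‖v‖) * |2 * π - 0| := by
      calc |(exp (-((k * s : ℝ) : ℂ) * I) * Ψ (z t)).im|
          ≤ ‖exp (-((k * s : ℝ) : ℂ) * I) * Ψ (z t)‖ := abs_im_le_norm _
        _ = ‖Ψ (z t)‖ := by
            rw [norm_mul, ← ofReal_neg, norm_exp_ofReal_mul_I, one_mul]
        _ ≤ C * ‖z t‖ * |2 * π - 0| := hΨb _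
        _ ≤ _ := by gcongr
    gcongr
    · exact Real.abs_sin_le_one _
    · exact hab _ _
  have hz0 : z 0 = p i := by
    simp only [hz, pt, zero_smul, add_zero]
  have hz1 : z 1 = p (i + 1) := by
    simp only [hz, pt, one_smul, add_sub_cancel]
  have hR1 := hRc 1 ⟨by norm_num, by norm_num⟩ 0 ⟨by norm_num, by norm_num⟩
  have hR0 : R 0 = (exp (-((k * τ : ℝ) : ℂ) * I) * Psi F k (p i)).re := by
    simp only [hRdef]
    rw [hz0]
    rfl
  have hR1' : R 1 = (exp (-((k * τ : ℝ) : ℂ) * I) * Psi F k (p (i + 1))).re := by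
    simp only [hRdef]
    rw [hz1]
    rfl
  refine ⟨?_, by rw [← hR0, ← hR1', hR1]⟩
  rw [← hR0]
  rw [hJ, swp hfm hfb]
  have hinner : ∀ t ∈ Ioo (0 : ℝ) 1, ∫ s in (0 : ℝ)..(2 * π), f s t = (‖v‖ * R 0) * H t := by
    intro t ht
    have h1 := (hSY (a t) C τ k (ham.comp (measurable_const.prodMk measurable_id)) (hab t) (hap t)
      (by filter_upwards [ae_sin τ] with θ hθ using has t ht θ hθ)).2 (Ψ (z t))
    simp only [hf]
    rw [intervalIntegral.integral_const_mul, h1]
    have h2 : (exp (-((k * τ : ℝ) : ℂ) * I) * Ψ (z t)).re = R 0 :=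
      hRc t ⟨ht.1.le, ht.2.le⟩ 0 ⟨by norm_num, by norm_num⟩
    rw [h2]
    simp only [hH]
    ring
  have h3 : ∫ t in (0 : ℝ)..1, ∫ s in (0 : ℝ)..(2 * π), f s t =
      ∫ t in (0 : ℝ)..1, (‖v‖ * R 0) * H t := by
    refine intervalIntegral.integral_congr_ae ?_
    have h1 : ∀ᵐ t : ℝ, t ≠ 1 := by
      have : volume ({1} : Set ℝ) = 0 := measure_singleton 1
      filter_upwards [measure_eq_zero_iff_ae_notMem.1 this] with t ht using ht
    filter_upwards [h1] with t ht1 ht
    rw [uIoc_of_le (by norm_num)] at ht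
    exact hinner t ⟨ht.1, lt_of_le_of_ne ht.2 ht1⟩
  rw [h3, intervalIntegral.integral_const_mul]
  have h4 : ∫ t in (0 : ℝ)..1, H t = ∫ s in (0 : ℝ)..(2 * π),
      Real.sin (s - τ) * (Real.sin (k * (s - τ)) * Mn p F i s) := by
    simp only [hH]
    have hm : Measurable (Function.uncurry (fun s t : ℝ =>
        Real.sin (s - τ) * (Real.sin (k * (s - τ)) * a t s))) := by
      have e4 : Measurable (fun x : ℝ × ℝ => a x.2 x.1) := ham.comp measurable_swap
      have e5 : Measurable (fun x : ℝ × ℝ => Real.sin (x.1 - τ)) :=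
        Real.measurable_sin.comp (measurable_fst.sub_const _)
      have e6 : Measurable (fun x : ℝ × ℝ => Real.sin (k * (x.1 - τ))) :=
        Real.measurable_sin.comp ((measurable_fst.sub_const _).const_mul _)
      exact e5.mul (e6.mul e4)
    have hbd : ∀ s, ∀ t ∈ uIoc (0 : ℝ) 1,
        |Real.sin (s - τ) * (Real.sin (k * (s - τ)) * a t s)| ≤ 1 * (1 * C) := by
      intro s t _
      rw [abs_mul, abs_mul]
      gcongr
      · exact Real.abs_sin_le_one _
      · exact Real.abs_sin_le_one _
      · exact hab _ _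
    rw [← swp hm hbd]
    refine intervalIntegral.integral_congr fun s _ => ?_
    beta_reduce
    rw [intervalIntegral.integral_const_mul, intervalIntegral.integral_const_mul]
    rfl
  rw [h4, Jn]
  ring

end Pool.Agent.N441.LB.J2
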